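import Pool.Agent.H654R5.PT.Stm

set_option autoImplicit false

namespace Pool.Agent.H654R5.PT.PPA

open Pool.Agent.NPC

variable {α : Type} [TEnc α]

theorem upow {n : α → ℕ} (hn : UPoly n) (E : ℕ) : UPoly (fun a => n a ^ E) := by
  induction E with
  | zero => simpa using UPoly.const (α := α) 1
  | succ k ih => simpa only [pow_succ] using UPoly.mul ih hn

/-- powers of two in binary -/
theorem pow2 {k : α → ℕ} (hk : UPoly k) : NPC.Poly (fun a => 2 ^ k a) := by
  have h1 : NPC.Poly (fun a => List.replicate (k a) false) :=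
    (NPC.Poly.map hk (F := fun _ _ => false) (NPC.Poly.const false)).congr fun a => by simp
  have h2 : NPC.Poly (fun a => List.replicate (k a) false ++ [true]) :=
    NPC.Poly.append h1 (NPC.Poly.const [true])
  refine (NPC.Poly.valBits h2).congr fun a => ?_
  rw [valB_replicate_false]
  simp

/-- powers of three in binary -/
theorem pow3 {k : α → ℕ} (hk : UPoly k) : NPC.Poly (fun a => 3 ^ k a) := by
  obtain ⟨r, hr⟩ := NPC.Poly.sz_le hk
  have hF : NPC.Poly (fun p : α × ℕ => p.2 * 3) :=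
    NPC.Poly.mul (NPC.Poly.snd NPC.Poly.id) (NPC.Poly.const 3)
  have hit : ∀ j : ℕ, (fun x : ℕ => x * 3)^[j] 1 = 3 ^ j := by
    intro j
    induction j with
    | zero => rfl
    | succ j ih => rw [Function.iterate_succ_apply', ih, pow_succ]
  have key := NPC.Poly.iterLen (l := fun a => List.replicate (k a) ()) (s := fun _ : α => (1 : ℕ))
    (F := fun _ x => x * 3) hk (NPC.Poly.const 1) hF
    (Polynomial.C 8 * r + Polynomial.C 5) (by
      intro a j hj
      show sz ((fun x : ℕ => x * 3)^[j] 1) ≤ _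
      rw [hit]
      have h1 := sz_nat_le (3 ^ j)
      have h2 : (3 ^ j).size ≤ 2 * j + 1 := by
        rw [Nat.size_le]
        calc 3 ^ j ≤ 4 ^ j := Nat.pow_le_pow_left (by norm_num) j
          _ = 2 ^ (2 * j) := by rw [pow_mul]; norm_num
          _ < 2 ^ (2 * j + 1) := Nat.pow_lt_pow_right (by norm_num) (by omega)
      have h3 : (List.replicate (k a) ()).length < sz (List.replicate (k a) ()) := length_lt_sz _
      have h4 := hr a
      simp only [Polynomial.eval_add, Polynomial.eval_mul, Polynomial.eval_C]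
      omega)
  refine key.congr fun a => ?_
  show (fun x : ℕ => x * 3)^[(List.replicate (k a) ()).length] 1 = 3 ^ k a
  rw [hit, List.length_replicate]

theorem logPar_of_le {k n : α → ℕ} (hk : UPoly k) (hn : UPoly n) (h : ∀ a, 2 ^ k a ≤ n a) :
    LogPar k := ⟨hk, UPoly.of_le (pow2 hk) hn h⟩

theorem lp_add {k m : α → ℕ} (hk : LogPar k) (hm : LogPar m) : LogPar (fun a => k a + m a) :=
  ⟨hk.1.add hm.1, (UPoly.mul hk.2 hm.2).congr fun a => by
    show List.replicate (2 ^ k a * 2 ^ m a) () = List.replicate (2 ^ (k a + m a)) ()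
    rw [pow_add]⟩

theorem lp_const (c : ℕ) : LogPar (fun _ : α => c) := ⟨UPoly.const c, UPoly.const (2 ^ c)⟩

theorem lp_mul (c : ℕ) {k : α → ℕ} (hk : LogPar k) : LogPar (fun a => c * k a) :=
  ⟨UPoly.mul (UPoly.const c) hk.1, (upow hk.2 c).congr fun a => by
    show List.replicate ((2 ^ k a) ^ c) () = List.replicate (2 ^ (c * k a)) ()
    rw [mul_comm c, pow_mul]⟩

theorem lp_size {g : α → ℕ} (hg : LogPar g) : LogPar (fun a => Nat.size (g a)) := by
  have h1 : UPoly (fun a => Nat.size (g a)) :=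
    (UPoly.length (NPC.Poly.natBits hg.1.toPoly)).congr fun a => by
      show List.replicate ((g a).bits.length) () = List.replicate (Nat.size (g a)) ()
      rw [Nat.size_eq_bits_len]
  refine logPar_of_le h1 (UPoly.add (UPoly.mul (UPoly.const 2) hg.1) (UPoly.const 1)) fun a => ?_
  rcases Nat.eq_zero_or_pos (g a) with h | h
  · rw [h]; simp
  · have h2 : 0 < Nat.size (g a) := Nat.size_pos.2 h
    obtain ⟨s, hs⟩ : ∃ s, Nat.size (g a) = s + 1 := ⟨_, (Nat.succ_pred_eq_of_pos h2).symm⟩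
    have h3 : 2 ^ s ≤ g a := by
      by_contra hlt
      push Not at hlt
      have := Nat.size_le.2 hlt
      omega
    rw [hs, pow_succ]
    omega

theorem PPA_proof (h1 : S_PRM) (h2 : S_PPR) (h3 : S_NUM) : S_PPA := by
  intro α _ g hg
  have hbq : ∀ {k : α → ℕ}, LogPar k → LogPar (fun a => bq (k a)) := fun hk =>
    lp_add (lp_mul 3 hk) (lp_const 10)
  have haa : ∀ {k : α → ℕ}, LogPar k → LogPar (fun a => aa (k a)) := fun hk =>
    lp_add (lp_mul 6 hk) (lp_const 21)
  have hpr : UPoly (fun a => pr (g a)) := h2 _ (hbq hg).2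
  have hqp : ∀ {k : α → ℕ}, LogPar k → UPoly (fun a => qp (k a)) := fun hk => h2 _ (haa hk).1
  have hgg : ∀ {k : α → ℕ}, LogPar k → UPoly (fun a => gg (k a)) := fun hk =>
    UPoly.add (UPoly.mul (UPoly.const 7) hk.1) (UPoly.const 15)
  have hdd : ∀ {k : α → ℕ}, LogPar k → UPoly (fun a => dd (k a)) := fun hk =>
    UPoly.mul (hgg hk) (UPoly.mul (haa hk).1 (hqp hk))
  have hgS : LogPar (fun a => gS (g a)) := lp_add (lp_mul 4 (lp_size hg)) (lp_const 40)
  have hddS : LogPar (fun a => dd (gS (g a))) := by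
    have hE : ∀ E : ℕ, (∀ g, 1 ≤ g → dd (gS g) ≤ E * g) → LogPar (fun a => dd (gS (g a))) := by
      intro E hE
      refine logPar_of_le (hdd hgS) (UPoly.add (upow hg.2 E) (UPoly.const (2 ^ dd (gS 0))))
        fun a => ?_
      rcases Nat.eq_zero_or_pos (g a) with h | h
      · rw [h]; exact Nat.le_add_left _ _
      · refine le_trans ?_ (Nat.le_add_right _ _)
        rw [← pow_mul, mul_comm (g a)]
        exact Nat.pow_le_pow_right (by norm_num) (hE _ h)
    exact hE (2 ^ 26) fun g hg => (h3 g hg).2.1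
  have hcS : LogPar (fun a => cS (g a)) := lp_add (lp_mul 5 hg) (lp_const 34)
  have hNN : UPoly (fun a => NN (g a)) := by
    refine UPoly.of_le (pow3 (UPoly.add hg.1 (UPoly.const 1)))
      (UPoly.mul (UPoly.const 4) (upow hg.2 2)) fun a => ?_
    calc 3 ^ (g a + 1) ≤ 4 ^ (g a + 1) := Nat.pow_le_pow_left (by norm_num) _
      _ = 4 * (2 ^ g a) ^ 2 := by
        rw [pow_succ, show (4 : ℕ) = 2 ^ 2 by norm_num, ← pow_mul, ← pow_mul, mul_comm 2 (g a),
          mul_comm]
  have hpad : LogPar (fun a => padN (g a)) :=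
    lp_add (lp_add (lp_add (lp_mul 2 hg) (lp_const 19)) hddS) (lp_mul 3 hgS)
  have hK2 : UPoly (fun a => K2 (g a)) :=
    UPoly.add (UPoly.add (UPoly.add (UPoly.add (hdd hg) hddS.1)
      (UPoly.mul (UPoly.const 3) hgS.1)) (UPoly.const 12)) (UPoly.const 1)
  have hnu : UPoly (fun a => nu1 (g a)) :=
    UPoly.add (UPoly.add (UPoly.add hK2 (hdd hg)) (UPoly.mul (UPoly.const 5) hg.1))
      (UPoly.const 17)
  have htau : UPoly (fun a => tau2 (g a)) := by
    have hA : UPoly (fun a => K2 (g a) + dd (g a) + 3 * g a + 10) :=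
      UPoly.add (UPoly.add (UPoly.add hK2 (hdd hg)) (UPoly.mul (UPoly.const 3) hg.1))
        (UPoly.const 10)
    refine UPoly.of_le (n := fun a => K2 (g a) + dd (g a) + 3 * g a + 10) ?_ hA fun a => ?_
    · exact NPC.Poly.sub (NPC.Poly.sub (NPC.Poly.sub hA.toPoly hddS.1.toPoly)
        (UPoly.mul (UPoly.const 3) hgS.1).toPoly) (NPC.Poly.const 12)
    · show K2 (g a) + dd (g a) + 3 * g a + 10 - dd (gS (g a)) - 3 * gS (g a) - 12 ≤ _
      exact le_trans (Nat.sub_le _ _) (le_trans (Nat.sub_le _ _) (Nat.sub_le _ _))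
  exact ⟨hbq hg, haa hg, hpr, hqp hg, hgg hg, hdd hg, hgS, hddS, hcS, hNN, hpad, hnu, htau, hK2⟩

end Pool.Agent.H654R5.PT.PPA
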